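import Pool.Agent.Q297.SpS

/-!
Components of the Brownian span set (MP_8cdf0c_pr): with positive probability the span set of
Brownian motion on `[0,1]` has infinitely many connected components.
-/

open MeasureTheory ProbabilityTheory Set
open scoped NNReal

namespace Pool.Agent.Results.MP_8cdf0c_pr.InfinitelyManyComponents

/-- the span set `{t - s : 0 ≤ s ≤ t ≤ 1, f s = f t}` of a path on `[0,1]` -/
def spanSet (f : ℝ≥0 → ℝ) : Set ℝ :=
  {h | ∃ s t : ℝ≥0, s ≤ t ∧ t ≤ 1 ∧ f s = f t ∧ h = (t : ℝ) - s}

/-- the set of connected components of a subset of the line -/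
def components (S : Set ℝ) : Set (Set ℝ) := {C | ∃ t ∈ S, C = connectedComponentIn S t}

/-- **Theorem.** For every Brownian motion there is an event of positive probability on which the
span set has infinitely many connected components and is not a finite union of closed intervals. In
particular it is false that the span set is almost surely a finite union of (pairwise disjoint)
closed intervals. -/
theorem result {Ω : Type*} [MeasurableSpace Ω] (P : Measure Ω) (B : ℝ≥0 → Ω → ℝ)
    (hB : IsBrownianReal B P) :
    (∃ A : Set Ω, MeasurableSet A ∧ 0 < P A ∧ ∀ ω ∈ A,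
      (components (spanSet (fun t => B t ω))).Infinite ∧
      ¬ ∃ (n : ℕ) (a b : Fin n → ℝ), spanSet (fun t => B t ω) = ⋃ i, Icc (a i) (b i)) ∧
    ¬ ∀ᵐ ω ∂P, (components (spanSet (fun t => B t ω))).Finite := by
  obtain ⟨A, mA, hA0, hA⟩ := Q297.Spn.final hB
  refine ⟨⟨A, mA, hA0, hA⟩, fun h => ?_⟩
  have hsub : A ⊆ {ω | ¬ (components (spanSet (fun t => B t ω))).Finite} :=
    fun ω hω => (hA ω hω).1
  exact hA0.ne' (measure_mono_null hsub h)

end Pool.Agent.Results.MP_8cdf0c_pr.InfinitelyManyComponents
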